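import Pool.Agent.Q66.IetLiou4

/-!
# A non-elementary piecewise constant cocycle of elliptic type over a 3-interval exchange

The interval exchange reverses the order of three intervals of lengths `a`, `b`, `1 - a - b`; it is
ergodic and satisfies Keane's condition. The cocycle takes the values `(1, 1; 0, 1)`, `-I` and
`(0, -1; 1, 0)` on the three intervals.
-/

open MeasureTheory Set Matrix

namespace Pool.Agent.Results.MP_a48a54_an.EllipticThreeIntervals

open Q66.Iet

/-- the exchange of `[0,a)`, `[a,a+b)`, `[a+b,1)` in reverse order -/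
noncomputable def T (a b x : ℝ) : ℝ :=
  if x < a then x + (1 - a) else if x < a + b then x + (1 - a - b) - a else x - (a + b)

/-- the three values of the cocycle -/
noncomputable def M : Fin 3 → SL2 :=
  ![⟨!![1, 1; 0, 1], by rw [Matrix.det_fin_two_of]; norm_num⟩,
    ⟨!![-1, 0; 0, -1], by rw [Matrix.det_fin_two_of]; norm_num⟩,
    ⟨!![0, -1; 1, 0], by rw [Matrix.det_fin_two_of]; norm_num⟩]

/-- the piecewise constant cocycle -/
noncomputable def ρ (a b x : ℝ) : SL2 := if x < a then M 0 else if x < a + b then M 1 else M 2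

/-- There are lengths for which `T` is an ergodic exchange of three intervals satisfying Keane's
condition, the values of `ρ` generate a Zariski dense subgroup of `SL(2,ℝ)`, and `(T, ρ)` is of
elliptic type and not of parabolic type. -/
theorem result :
    ∃ a b : ℝ, 0 < a ∧ 0 < b ∧ a + b < 1 ∧
      IsIET 3 ![0, a, a + b, 1] (T a b) ∧ Ergodic (T a b) μ ∧
      (∀ n ≥ 1, ∀ c ∈ ({a, a + b} : Set ℝ), ∀ c' ∈ ({a, a + b} : Set ℝ), (T a b)^[n] c ≠ c') ∧
      IsPiecewise ![0, a, a + b, 1] M (ρ a b) ∧ NonElementary M ∧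
      EllipticType (T a b) (ρ a b) ∧ ¬ ParabolicType (T a b) (ρ a b) := by
  obtain ⟨α, β, h, B, hB, hco⟩ := exists_ex
  have hM1 : M 1 = -1 := by
    ext i j
    fin_cases i <;> fin_cases j <;> simp [M]
  have hρ : ρ (la α β) (lb α β) = rho3 (la α β) (lb α β) := by
    ext1 x
    unfold ρ rho3
    rw [hM1]
    rfl
  have hT : T (la α β) (lb α β) = iet3 (la α β) (lb α β) := rfl
  refine ⟨la α β, lb α β, h.la_pos, h.lb_pos, h.lab, h.isIET, h.ergodic, ?_, ?_, ?_, ?_, ?_⟩
  · intro n hn c hc c' hc'
    obtain ⟨h1, h2, h3, h4⟩ := h.keane n hn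
    rcases hc with rfl | rfl <;> rcases hc' with rfl | rfl
    · exact h1
    · exact h2
    · exact h3
    · exact h4
  · intro j x hx
    fin_cases j
    · have h1 : x < la α β := hx.2
      show ρ _ _ x = M 0
      unfold ρ; rw [if_pos h1]
    · have h1 : la α β ≤ x := hx.1
      have h2 : x < la α β + lb α β := hx.2
      show ρ _ _ x = M 1
      unfold ρ; rw [if_neg (not_lt.2 h1), if_pos h2]
    · have h1 : la α β + lb α β ≤ x := hx.1
      have h2 := h.lb_pos
      show ρ _ _ x = M 2
      unfold ρ; rw [if_neg (by linarith), if_neg (by linarith)]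
  · exact sl2z_dense (Subgroup.subset_closure ⟨0, rfl⟩) (Subgroup.subset_closure ⟨2, rfl⟩)
  · rw [hT, hρ]; exact h.elliptic hB hco
  · rw [hT, hρ]; exact h.not_parabolic hB hco

end Pool.Agent.Results.MP_a48a54_an.EllipticThreeIntervals
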