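import Pool.Agent.Q66.IetGold2

/-!
# A non-elementary piecewise constant cocycle of parabolic type over the golden rotation

The interval exchange is the rotation of `[0,1)` by `1 - g`, `g = (√5 - 1)/2`, with its two natural
intervals `[0,g)` and `[g,1)`; the cocycle takes the values
`M 0 = (1/9) (6, 5; -3, 11)` and `M 1 = (1/8) (7, 3; 2, 10)` on them.
-/

open MeasureTheory Set Matrix

namespace Pool.Agent.Results.MP_a48a54_an.ParabolicGolden

open Q66.Iet

/-- the inverse golden ratio -/
noncomputable def g : ℝ := (Real.sqrt 5 - 1) / 2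

/-- the golden rotation as an exchange of the two intervals `[0,g)` and `[g,1)` -/
noncomputable def T (x : ℝ) : ℝ := if x < g then x + (1 - g) else x - g

/-- the two values of the cocycle -/
noncomputable def M : Fin 2 → SL2 :=
  ![⟨!![2 / 3, 5 / 9; -1 / 3, 11 / 9], by rw [Matrix.det_fin_two_of]; norm_num⟩,
    ⟨!![7 / 8, 3 / 8; 1 / 4, 5 / 4], by rw [Matrix.det_fin_two_of]; norm_num⟩]

/-- the piecewise constant cocycle -/
noncomputable def ρ (x : ℝ) : SL2 := if x < g then M 0 else M 1

/-- `T` is an ergodic exchange of two intervals, `ρ` is piecewise constant on these two intervals,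
its values generate a Zariski dense subgroup of `SL(2,ℝ)`, and `(T, ρ)` is of parabolic type. -/
theorem result :
    IsIET 2 ![0, g, 1] T ∧ Ergodic T μ ∧ IsPiecewise ![0, g, 1] M ρ ∧ NonElementary M ∧
      ParabolicType T ρ := by
  refine ⟨gold_iet, gold_ergodic, ?_, ?_, ?_⟩
  · intro j x hx
    fin_cases j
    · have h : x < g := hx.2
      show (if x < g then M 0 else M 1) = M 0
      rw [if_pos h]
    · have h : g ≤ x := hx.1
      show (if x < g then M 0 else M 1) = M 1
      rw [if_neg (not_lt.2 h)]
  · exact gold_dense (Subgroup.subset_closure ⟨0, rfl⟩) (Subgroup.subset_closure ⟨1, rfl⟩)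
  · refine ⟨fun x => lowU (sl x), ?_, vv, fun x => if x < g then 5 / 9 else 3 / 8, meas_vv,
      Measurable.ite measurableSet_Iio measurable_const measurable_const, vv_pos, ?_, ?_, ?_⟩
    · have := meas_sl
      intro i j
      unfold lowU
      fin_cases i <;> fin_cases j <;> simp <;> fun_prop
    · unfold μ
      exact Measure.integrableOn_of_bounded (by simp)
        (Real.measurable_log.comp meas_vv).aestronglyMeasurable
        (Filter.Eventually.of_forall fun x => by rw [Real.norm_eq_abs]; exact logv_bd x)
    · rw [mu_int]; exact int_zero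
    · have h0 : ∀ᵐ x ∂μ, x ≠ 0 := by
        unfold μ
        exact ae_restrict_of_ae (by
          rw [ae_iff]
          simp)
      filter_upwards [ae_mem01, h0] with x hx hx0
      have hG := good_of_pos (lt_of_le_of_ne hx.1 (Ne.symm hx0)) hx.2
      have hm := sl_mem x
      unfold Good at hG
      by_cases h : x < gs
      · have e1 : ρ x = M 0 := if_pos h
        have e2 : (if x < g then (5 / 9 : ℝ) else 3 / 8) = 5 / 9 := if_pos h
        have e3 : vv x = (6 + 5 * sl x) / 9 := if_pos h
        rw [if_pos h] at hG
        rw [e1, e2]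
        have hv := vv_pos x
        refine conj_upper (p := 2 / 3) (q := 5 / 9) (r := -1 / 3) (w := 11 / 9) (M 0) rfl hv.ne'
          (by rw [e3]; ring) ?_
        show sl (gT x) * vv x = _
        have n1 : (6 + 5 * sl x) ≠ 0 := by linarith
        have h2 : sl (gT x) * (6 + 5 * sl x) = -3 + 11 * sl x := by
          rw [hG, div_mul_cancel₀ _ n1]
        rw [e3]
        linear_combination (1 / 9 : ℝ) * h2
      · have e1 : ρ x = M 1 := if_neg h
        have e2 : (if x < g then (5 / 9 : ℝ) else 3 / 8) = 3 / 8 := if_neg h
        have e3 : vv x = (7 + 3 * sl x) / 8 := if_neg h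
        rw [if_neg h] at hG
        rw [e1, e2]
        have hv := vv_pos x
        refine conj_upper (p := 7 / 8) (q := 3 / 8) (r := 1 / 4) (w := 5 / 4) (M 1) rfl hv.ne'
          (by rw [e3]; ring) ?_
        show sl (gT x) * vv x = _
        have n1 : (7 + 3 * sl x) ≠ 0 := by linarith
        have h2 : sl (gT x) * (7 + 3 * sl x) = 2 + 10 * sl x := by
          rw [hG, div_mul_cancel₀ _ n1]
        rw [e3]
        linear_combination (1 / 8 : ℝ) * h2

end Pool.Agent.Results.MP_a48a54_an.ParabolicGolden
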